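import Pool.Agent.V11210.GH.Hubs

/-!
# The smallest graceful tree containing a given tree: `γ(T) = |E(T)|` for trees with few hubs

For every `k` there is a constant `C` such that the following holds for every finite tree `T` with `m`
edges and every set `S` of at most `k` vertices of `T`: if `r` vertices outside `S` are not leaves
adjacent to a vertex of `S` and `C (r + 1) ≤ m`, then `T` is graceful; so `γ(T) = |E(T)|` and `T` itself
is a smallest graceful tree containing `T`.  So a small proportion of the tree is arbitrary and the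
remaining vertices are leaves attached, in any numbers, to `k` arbitrary vertices.

One hub: `V11210.GH.Main` (project `TH529.GH`), two hubs: `W821.TH`, at least three large hubs:
`TH908.KH` (libraries of the starting files); hubs with few leaves are removed one by one.
-/

set_option autoImplicit false

namespace Pool.Agent.Results.MP_128071_co.FewHubs

/-- A graph with `m` edges is graceful if there is an injective map `f` of the vertices to
`{0, 1, …, m}` such that the edge labels `|f u - f v|` are exactly `1, …, m`. -/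
def Graceful {V : Type} (T : SimpleGraph V) : Prop :=
  ∃ f : V → ℕ, Function.Injective f ∧ (∀ v, f v ≤ T.edgeSet.ncard) ∧
    {d : ℕ | ∃ u v : V, T.Adj u v ∧ d = Int.natAbs ((f u : ℤ) - (f v : ℤ))} =
      Set.Icc 1 T.edgeSet.ncard

/-- The numbers of edges of the finite graceful trees which have a subgraph isomorphic to `T`. -/
def gracefulSizes {V : Type} (T : SimpleGraph V) : Set ℕ :=
  {k | ∃ (W : Type) (_ : Fintype W) (T' : SimpleGraph W),
    T'.IsTree ∧ Graceful T' ∧ T.IsContained T' ∧ T'.edgeSet.ncard = k}

/-- `γ(T)`: the least number of edges of a graceful tree which has a subgraph isomorphic to `T`. -/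
noncomputable def gamma {V : Type} (T : SimpleGraph V) : ℕ := sInf (gracefulSizes T)

theorem le_of_mem {V : Type} {T : SimpleGraph V} {k : ℕ}
    (hk : k ∈ gracefulSizes T) : T.edgeSet.ncard ≤ k := by
  classical
  obtain ⟨W, _, T', _, _, ⟨φ⟩, rfl⟩ := hk
  have hinj : Function.Injective φ := φ.injective
  have h1 : Sym2.map φ '' T.edgeSet ⊆ T'.edgeSet := by
    rintro _ ⟨e, he, rfl⟩
    induction e using Sym2.ind with
    | _ x y =>
      rw [Sym2.map_mk, SimpleGraph.mem_edgeSet]
      exact φ.toHom.map_adj ((SimpleGraph.mem_edgeSet T).1 he)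
  calc T.edgeSet.ncard = (Sym2.map φ '' T.edgeSet).ncard :=
        (Set.ncard_image_of_injective _ (Sym2.map.injective hinj)).symm
    _ ≤ T'.edgeSet.ncard := Set.ncard_le_ncard h1 (Set.toFinite _)

/-- For every `k` there is `C` such that for every finite tree `T` and every set `S` of at most `k`
vertices of `T`: if `r` is the number of the vertices outside `S` which are not leaves adjacent to a
vertex of `S` and `C (r + 1) ≤ |E(T)|`, then `T` is graceful; hence `γ(T) = |E(T)|` (and `T` itself is a
smallest graceful tree containing `T`). -/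
theorem result : ∀ k : ℕ, ∃ C : ℕ, ∀ (V : Type) [Fintype V] (T : SimpleGraph V), T.IsTree →
    ∀ S : Set V, S.ncard ≤ k →
    C * ({x : V | x ∉ S ∧ ¬ ((T.neighborSet x).ncard = 1 ∧ ∃ i ∈ S, T.Adj i x)}.ncard + 1) ≤
      T.edgeSet.ncard →
    Graceful T ∧ T.edgeSet.ncard ∈ gracefulSizes T ∧ gamma T = T.edgeSet.ncard := by
  intro k
  obtain ⟨C, hC1, hC⟩ := Pool.Agent.V11210.GH.hub_all k
  refine ⟨C, fun V _ T hT S hSk hm => ?_⟩
  classical
  have hG : Graceful T := by
    have hmem : ∀ x, x ∈ S.toFinset ↔ x ∈ S := fun x => Set.mem_toFinset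
    refine hC V T hT S.toFinset _ _ (Pool.Agent.V11210.GH.hs_canon T S.toFinset) ?_ ?_
    · rwa [← Set.ncard_eq_toFinset_card']
    · refine le_trans (Nat.mul_le_mul_left C (Nat.succ_le_succ ?_)) hm
      rw [← Set.ncard_coe_finset]
      refine Set.ncard_le_ncard ?_ (Set.toFinite _)
      intro x hx
      rw [Finset.mem_coe, Pool.Agent.V11210.GH.mem_rs, hmem] at hx
      refine ⟨hx.1, ?_⟩
      rintro ⟨h1, i, hi, h2⟩
      refine hx.2 i ((hmem i).2 hi) (Pool.Agent.V11210.GH.mem_lv.2 ⟨fun h => hx.1 ((hmem x).1 h), h2, ?_⟩)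
      intro z hz
      obtain ⟨a, ha⟩ := Set.ncard_eq_one.1 h1
      have e1 : i ∈ T.neighborSet x := h2.symm
      have e2 : z ∈ T.neighborSet x := hz
      rw [ha, Set.mem_singleton_iff] at e1 e2
      rw [e1, e2]
  have hmem : T.edgeSet.ncard ∈ gracefulSizes T :=
    ⟨V, inferInstance, T, hT, hG, SimpleGraph.IsContained.refl T, rfl⟩
  exact ⟨hG, hmem, le_antisymm (Nat.sInf_le hmem) (le_of_mem (Nat.sInf_mem ⟨_, hmem⟩))⟩

end Pool.Agent.Results.MP_128071_co.FewHubs
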