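import Pool.Agent.H115R3.Final

/-!
# The smallest graceful tree containing a given tree: `γ(T) = |E(T)|` if `T` has few non-leaves

Let `T` be a finite tree with `n` vertices and `k` non-leaves.  If `n` is at least an explicit
polynomial in `k` (of degree `46`), then `T` is graceful; so `γ(T) = |E(T)|` and `T` itself is a
smallest graceful tree containing `T`.

The proof is `H115R3.graceful_of_few` of the starting files (never handed in there).
-/

set_option autoImplicit false

namespace Pool.Agent.Results.MP_128071_co.FewNonLeaves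

/-- A graph with `m` edges is graceful if there is an injective map `f` of the vertices to
`{0, 1, …, m}` such that the edge labels `|f u - f v|` are exactly `1, …, m`. -/
def Graceful {V : Type} (T : SimpleGraph V) : Prop :=
  ∃ f : V → ℕ, Function.Injective f ∧ (∀ v, f v ≤ T.edgeSet.ncard) ∧
    {d : ℕ | ∃ u v : V, T.Adj u v ∧ d = Int.natAbs ((f u : ℤ) - (f v : ℤ))} =
      Set.Icc 1 T.edgeSet.ncard

/-- The numbers of edges of the finite graceful trees which have a subgraph isomorphic to `T`. -/
def gracefulSizes {V : Type} (T : SimpleGraph V) : Set ℕ :=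
  {k | ∃ (W : Type) (_ : Fintype W) (T' : SimpleGraph W),
    T'.IsTree ∧ Graceful T' ∧ T.IsContained T' ∧ T'.edgeSet.ncard = k}

/-- `γ(T)`: the least number of edges of a graceful tree which has a subgraph isomorphic to `T`. -/
noncomputable def gamma {V : Type} (T : SimpleGraph V) : ℕ := sInf (gracefulSizes T)

theorem le_of_mem {V : Type} {T : SimpleGraph V} {k : ℕ}
    (hk : k ∈ gracefulSizes T) : T.edgeSet.ncard ≤ k := by
  classical
  obtain ⟨W, _, T', _, _, ⟨φ⟩, rfl⟩ := hk
  have hinj : Function.Injective φ := φ.injective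
  have h1 : Sym2.map φ '' T.edgeSet ⊆ T'.edgeSet := by
    rintro _ ⟨e, he, rfl⟩
    induction e using Sym2.ind with
    | _ x y =>
      rw [Sym2.map_mk, SimpleGraph.mem_edgeSet]
      exact φ.toHom.map_adj ((SimpleGraph.mem_edgeSet T).1 he)
  calc T.edgeSet.ncard = (Sym2.map φ '' T.edgeSet).ncard :=
        (Set.ncard_image_of_injective _ (Sym2.map.injective hinj)).symm
    _ ≤ T'.edgeSet.ncard := Set.ncard_le_ncard h1 (Set.toFinite _)

/-- Let `T` be a finite tree, `n` the number of its vertices and `k` the number of its non-leaves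
(vertices of degree at least `2`).  If `n ≥ 261 k ^ 4 (226 (1921 k ^ 6) ^ 7 + 1)`, then `T` is
graceful; hence `γ(T) = |E(T)|` (and `T` itself is a smallest graceful tree containing `T`). -/
theorem result : ∀ (V : Type) [Fintype V] (T : SimpleGraph V), T.IsTree →
    ∀ k : ℕ, {x : V | 2 ≤ (T.neighborSet x).ncard}.ncard = k →
    261 * k ^ 4 * (226 * (1921 * k ^ 6) ^ 7 + 1) ≤ Fintype.card V →
    Graceful T ∧ T.edgeSet.ncard ∈ gracefulSizes T ∧ gamma T = T.edgeSet.ncard := by
  intro V _ T hT k hk hn
  classical
  have hG : Graceful T := by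
    have hI : ∀ w, w ∈ (Finset.univ.filter fun x : V => 2 ≤ (T.neighborSet x).ncard) ↔
        2 ≤ (T.neighborSet w).ncard := by
      intro w
      simp
    have hk' : (Finset.univ.filter fun x : V => 2 ≤ (T.neighborSet x).ncard).card = k := by
      rw [← hk, ← Set.ncard_coe_finset]
      congr 1
      ext x
      simp
    refine Pool.Agent.H115R3.graceful_of_few hT hI hk' rfl rfl rfl ?_
    calc 261 * k ^ 3 * (k * (226 * (1921 * k ^ 6) ^ 7 + 1))
        = 261 * k ^ 4 * (226 * (1921 * k ^ 6) ^ 7 + 1) := by ring
      _ ≤ Fintype.card V := hn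
  have hmem : T.edgeSet.ncard ∈ gracefulSizes T :=
    ⟨V, inferInstance, T, hT, hG, SimpleGraph.IsContained.refl T, rfl⟩
  exact ⟨hG, hmem, le_antisymm (Nat.sInf_le hmem) (le_of_mem (Nat.sInf_mem ⟨_, hmem⟩))⟩

end Pool.Agent.Results.MP_128071_co.FewNonLeaves
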