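import Pool.Agent.V11210.GH.Main

/-!
# The smallest graceful tree containing a given tree: `γ(T) = |E(T)|` if `T` has a vertex of degree at least `(1 - 10^(-18)) |E(T)|`

Every finite tree `T` with `m` edges and a vertex of degree at least `(1 - 10^(-18)) m` is graceful; so
`γ(T) = |E(T)|` and `T` itself is a smallest graceful tree containing `T`.  There are no exceptions and
the rest of the tree is arbitrary.

The vertex `v` gets the label `0`; the vertices not adjacent to `v` and their ancestors get labels such
that the set of these labels is the set of the labels of the edges above them; all other vertices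
are neighbours of `v` and get the remaining labels.  The parts of the proof are in the library
`TH529.GH` of the starting files; the last part and the assembly are new (`V11210.GH`).
-/

set_option autoImplicit false

namespace Pool.Agent.Results.MP_128071_co.LargeMaxDegree

/-- A graph with `m` edges is graceful if there is an injective map `f` of the vertices to
`{0, 1, …, m}` such that the edge labels `|f u - f v|` are exactly `1, …, m`. -/
def Graceful {V : Type} (T : SimpleGraph V) : Prop :=
  ∃ f : V → ℕ, Function.Injective f ∧ (∀ v, f v ≤ T.edgeSet.ncard) ∧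
    {d : ℕ | ∃ u v : V, T.Adj u v ∧ d = Int.natAbs ((f u : ℤ) - (f v : ℤ))} =
      Set.Icc 1 T.edgeSet.ncard

/-- The numbers of edges of the finite graceful trees which have a subgraph isomorphic to `T`. -/
def gracefulSizes {V : Type} (T : SimpleGraph V) : Set ℕ :=
  {k | ∃ (W : Type) (_ : Fintype W) (T' : SimpleGraph W),
    T'.IsTree ∧ Graceful T' ∧ T.IsContained T' ∧ T'.edgeSet.ncard = k}

/-- `γ(T)`: the least number of edges of a graceful tree which has a subgraph isomorphic to `T`. -/
noncomputable def gamma {V : Type} (T : SimpleGraph V) : ℕ := sInf (gracefulSizes T)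

theorem le_of_mem {V : Type} {T : SimpleGraph V} {k : ℕ}
    (hk : k ∈ gracefulSizes T) : T.edgeSet.ncard ≤ k := by
  classical
  obtain ⟨W, _, T', _, _, ⟨φ⟩, rfl⟩ := hk
  have hinj : Function.Injective φ := φ.injective
  have h1 : Sym2.map φ '' T.edgeSet ⊆ T'.edgeSet := by
    rintro _ ⟨e, he, rfl⟩
    induction e using Sym2.ind with
    | _ x y =>
      rw [Sym2.map_mk, SimpleGraph.mem_edgeSet]
      exact φ.toHom.map_adj ((SimpleGraph.mem_edgeSet T).1 he)
  calc T.edgeSet.ncard = (Sym2.map φ '' T.edgeSet).ncard :=
        (Set.ncard_image_of_injective _ (Sym2.map.injective hinj)).symm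
    _ ≤ T'.edgeSet.ncard := Set.ncard_le_ncard h1 (Set.toFinite _)

/-- Every finite tree `T` with `m` edges and a vertex `v` of degree at least `(1 - 1 / 10 ^ 18) m` is
graceful; hence `γ(T) = |E(T)|` (and `T` itself is a smallest graceful tree containing `T`). -/
theorem result : ∀ (V : Type) [Fintype V] (T : SimpleGraph V), T.IsTree → ∀ v : V,
    (1 - 1 / 10 ^ 18 : ℝ) * T.edgeSet.ncard ≤ (T.neighborSet v).ncard →
    Graceful T ∧ T.edgeSet.ncard ∈ gracefulSizes T ∧ gamma T = T.edgeSet.ncard := by
  intro V _ T hT v hv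
  classical
  have hG : Graceful T := by
    have hmV := Pool.Agent.H115R2.ncard_edge T hT
    obtain ⟨m, hm⟩ : ∃ m, m = T.edgeSet.ncard := ⟨_, rfl⟩
    obtain ⟨d, hd⟩ : ∃ d, d = (T.neighborSet v).ncard := ⟨_, rfl⟩
    obtain ⟨t, ht⟩ : ∃ t, t = {x : V | x ≠ v ∧ ¬ T.Adj v x}.ncard := ⟨_, rfl⟩
    have hsum : t + d + 1 = m + 1 := by
      have h1 : ({x : V | x ≠ v ∧ ¬ T.Adj v x} ∪ T.neighborSet v) ∪ {v} = Set.univ := by
        ext x
        simp only [Set.mem_union, Set.mem_setOf_eq, SimpleGraph.mem_neighborSet,
          Set.mem_singleton_iff, Set.mem_univ, iff_true]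
        tauto
      have h2 : Disjoint {x : V | x ≠ v ∧ ¬ T.Adj v x} (T.neighborSet v) := by
        rw [Set.disjoint_left]
        intro x hx hx'
        exact hx.2 hx'
      have h3 : Disjoint ({x : V | x ≠ v ∧ ¬ T.Adj v x} ∪ T.neighborSet v) {v} := by
        rw [Set.disjoint_singleton_right]
        rintro (h | h)
        · exact h.1 rfl
        · exact T.loopless.irrefl v h
      have h4 := Set.ncard_union_eq h3 (Set.toFinite _) (Set.toFinite _)
      rw [h1, Set.ncard_univ, Nat.card_eq_fintype_card, Set.ncard_singleton,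
        Set.ncard_union_eq h2 (Set.toFinite _) (Set.toFinite _), ← ht, ← hd, ← hmV, ← hm] at h4
      omega
    have hreal : (10 ^ 18 : ℝ) * t ≤ m := by
      have h5 : (t : ℝ) + d = m := by exact_mod_cast (by omega : t + d = m)
      rw [← hm, ← hd] at hv
      have h6 : (t : ℝ) ≤ 1 / 10 ^ 18 * m := by linarith
      calc (10 ^ 18 : ℝ) * t ≤ 10 ^ 18 * (1 / 10 ^ 18 * m) :=
            mul_le_mul_of_nonneg_left h6 (by positivity)
        _ = m := by ring
    have hnat : 10 ^ 18 * t ≤ m := by exact_mod_cast hreal
    refine Pool.Agent.V11210.GH.main V T hT v t ht.ge ?_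
    rw [← hm]
    omega
  have hmem : T.edgeSet.ncard ∈ gracefulSizes T :=
    ⟨V, inferInstance, T, hT, hG, SimpleGraph.IsContained.refl T, rfl⟩
  exact ⟨hG, hmem, le_antisymm (Nat.sInf_le hmem) (le_of_mem (Nat.sInf_mem ⟨_, hmem⟩))⟩

end Pool.Agent.Results.MP_128071_co.LargeMaxDegree
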